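import Pool.Agent.H73.LinLat.Final

/-!
# No nontrivial labelling
-/

set_option autoImplicit false

namespace Pool.Agent.H73.LinLat

namespace Lab

variable {S : Type*} (L : Lab S)

/-- The translations. -/
def Tset : Set (Function.End L.X) :=
  {f | ∃ v z s s', L.Ad v s s' ∧ f = L.T v z s s'}

theorem Tset_comm : ∀ f ∈ L.Tset, ∀ g ∈ L.Tset, f * g = g * f := by
  rintro f ⟨v, z, s, s', h, rfl⟩ g ⟨u, y, r, r', h', rfl⟩
  funext x
  exact T_comm z y h h' x

instance : IsMulCommutative (Submonoid.closure L.Tset) :=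
  Submonoid.isMulCommutative_closure _ L.Tset_comm

open scoped IsMulCommutative

/-- The commutative monoid generated by the translations. -/
abbrev Amon : Type _ := Submonoid.closure L.Tset

/-- Admissibility is an equivalence relation. -/
def adSet (s : ℕ → S) (v : Vec) : Setoid ℕ where
  r i j := L.Ad v (s i) (s j)
  iseqv := ⟨fun i => ad_of_GN v (by rw [L.refl]; exact le_top), fun h => h.symm,
    fun h h' => h.trans h'⟩

/-- A representative of the class of `i`. -/
noncomputable def rep (s : ℕ → S) (v : Vec) (i : ℕ) : ℕ := (Quotient.mk (L.adSet s v) i).out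

theorem rep_ad (s : ℕ → S) (v : Vec) (i : ℕ) : L.Ad v (s i) (s (L.rep s v i)) := by
  have h : (L.adSet s v) (L.rep s v i) i := Quotient.exact (Quotient.out_eq _)
  exact Ad.symm h

theorem rep_eq {s : ℕ → S} {v : Vec} {i j : ℕ} (h : L.Ad v (s i) (s j)) :
    L.rep s v i = L.rep s v j := by
  have h' : (Quotient.mk (L.adSet s v) i) = (Quotient.mk (L.adSet s v) j) := Quotient.sound h
  unfold rep
  rw [h']

/-- The potential. -/
noncomputable def gam (s : ℕ → S) (v : Vec) (i : ℕ) : L.Amon :=
  ⟨L.T v 0 (s i) (s (L.rep s v i)),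
    Submonoid.subset_closure ⟨v, 0, s i, s (L.rep s v i), L.rep_ad s v i, rfl⟩⟩

theorem gam_sq (s : ℕ → S) (v : Vec) (i : ℕ) : L.gam s v i * L.gam s v i = 1 := by
  apply Subtype.ext
  funext x
  exact T_sq 0 (L.rep_ad s v i) x

theorem gam_mul {s : ℕ → S} {v : Vec} {i j : ℕ} (h : L.Ad v (s i) (s j)) (x : L.X) :
    (L.gam s v i * L.gam s v j : L.Amon).1 x = L.T v 0 (s i) (s j) x := by
  change L.T v 0 (s i) (s (L.rep s v i)) (L.T v 0 (s j) (s (L.rep s v j)) x) = _
  have hi := L.rep_ad s v i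
  have hj := L.rep_ad s v j
  rw [T_comm 0 0 hi hj]
  rw [L.rep_eq h] at hi ⊢
  rw [← T_symm hj, T_trans 0 hi hj.symm]

/-- There is no nontrivial labelling. -/
theorem contra (o o' : S) (z0 : Mat) (h0 : (⟨0, z0, 0⟩ : Gam) ∉ L.M o o') : False := by
  choose s hs using fun i : ℕ => exists_s (L := L) (z0 := z0) (frm (form i)) o o'
  set a : L.X → L.X := L.T 0 z0 o o' with ha
  have haa : ∀ x, a (a x) = x := fun x => T_sq z0 (ad_zero o o') x
  have hT : ∀ i j z x, L.T 0 z (s i) (s j) x =
      if frm (form i) z = frm (form j) z then x else a x := by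
    intro i j z x
    have h1 : L.T 0 z (s i) (s j) x = L.T 0 z o (s j) (L.T 0 z o (s i) x) := by
      rw [← T_symm (ad_zero o (s i)), T_trans z (ad_zero _ _) (ad_zero _ _)]
    rw [h1, hs i z x, hs j]
    generalize frm (form i) z = p
    generalize frm (form j) z = q
    have hp : p = 0 ∨ p = 1 := by revert p; decide
    have hq : q = 0 ∨ q = 1 := by revert q; decide
    rcases hp with rfl | rfl <;> rcases hq with rfl | rfl
    · simp
    · simp
    · simp
    · simp [haa]
  have hAd : ∀ i j v, Chk (form i + form j) v → L.Ad v (s i) (s j) := by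
    intro i j v hc
    refine ⟨fun y => ?_, ?_⟩
    · rw [mem_kap]
      obtain ⟨x⟩ : Nonempty L.X := ⟨Quotient.mk L.st o⟩
      apply mem_of_T (ad_zero _ _) (x := x)
      rw [hT, if_pos (eq_of_frm_add (hc.tens_add y))]
    · rw [mem_kap]
      obtain ⟨x⟩ : Nonempty L.X := ⟨Quotient.mk L.st o⟩
      apply mem_of_T (ad_zero _ _) (x := x)
      rw [hT, if_pos (eq_of_frm_add hc.tens_self)]
  let a' : L.Amon := ⟨a, Submonoid.subset_closure ⟨0, z0, o, o', ad_zero o o', rfl⟩⟩
  have haa' : a' * a' = 1 := by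
    apply Subtype.ext
    funext x
    exact haa x
  have hone : a' = 1 := by
    apply final (fun n => L.gam s (vecOf (n / 14)) (n % 14)) (fun n => L.gam_sq s _ _) a' haa'
    intro e he
    have hok := edges_ok e he
    have hlt : ∀ e ∈ edges, e.2.2.2.1 < 14 ∧ e.2.2.2.2.1 < 14 ∧ e.2.2.2.2.2 < 2 := by decide
    obtain ⟨hi, hj, hc⟩ := hlt e he
    obtain ⟨x, y, u, i, j, c⟩ := e
    simp only at hi hj hc
    obtain ⟨hu, hx, hy, hf⟩ := hok
    simp only at hu hx hy hf
    have k1 : ∀ x : ℕ, (x * 14 + i) / 14 = x := fun x => by omega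
    have k2 : ∀ x : ℕ, (x * 14 + i) % 14 = i := fun x => by omega
    have k3 : ∀ x : ℕ, (x * 14 + j) / 14 = x := fun x => by omega
    have k4 : ∀ x : ℕ, (x * 14 + j) % 14 = j := fun x => by omega
    simp only [codes, List.map_cons, List.map_nil, List.prod_cons, List.prod_nil, mul_one, k1, k2,
      k3, k4]
    have hAx := hAd i j _ hx
    have hAy := hAd i j _ hy
    have hAu : L.Ad (vecOf u) (s i) (s j) := by rw [hu]; exact hAx.add hAy
    apply Subtype.ext
    funext t
    have r1 : (L.gam s (vecOf x) i * (L.gam s (vecOf x) j * (L.gam s (vecOf y) i *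
        (L.gam s (vecOf y) j * (L.gam s (vecOf u) i * L.gam s (vecOf u) j)))) : L.Amon) =
        (L.gam s (vecOf x) i * L.gam s (vecOf x) j) * ((L.gam s (vecOf y) i *
        L.gam s (vecOf y) j) * (L.gam s (vecOf u) i * L.gam s (vecOf u) j)) := by
      simp only [mul_assoc]
    rw [r1]
    change (L.gam s (vecOf x) i * L.gam s (vecOf x) j : L.Amon).1
      ((L.gam s (vecOf y) i * L.gam s (vecOf y) j : L.Amon).1
      ((L.gam s (vecOf u) i * L.gam s (vecOf u) j : L.Amon).1 t)) = _
    rw [L.gam_mul hAx, L.gam_mul hAy, L.gam_mul hAu]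
    rw [T_mul 0 0 hAx hAy]
    have e1 : ∀ w, L.T (vecOf x + vecOf y) (0 + 0 + tens (vecOf x) (vecOf y)) (s i) (s j) w =
        L.T 0 (tens (vecOf x) (vecOf y)) (s i) (s j) (L.T (vecOf u) 0 (s i) (s j) w) := by
      intro w
      rw [T_mul _ _ (ad_zero _ _) hAu]
      have e2 : (0 : Vec) + vecOf u = vecOf x + vecOf y := by rw [zero_add, hu]
      have e3 : tens (vecOf x) (vecOf y) + 0 + tens 0 (vecOf u) =
          0 + 0 + tens (vecOf x) (vecOf y) := by
        ext i j; simp
      rw [e2, e3]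
    rw [e1, T_sq 0 hAu, hT]
    have hc' : c = 0 ∨ c = 1 := by omega
    rcases hc' with rfl | rfl
    · rw [if_pos (eq_of_frm_add (by simpa using hf))]
      simp
      rfl
    · rw [if_neg]
      · simp
        rfl
      · intro hcon
        rw [frm_add_left, hcon, zz] at hf
        simp at hf
  have hcon : ∀ x, a x = x := by
    intro x
    have : (a' : L.Amon).1 x = (1 : L.Amon).1 x := by rw [hone]
    exact this
  exact h0 (mem_of_T (ad_zero _ _) (hcon (Quotient.mk L.st o)))

end Lab

end Pool.Agent.H73.LinLat
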