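import Mathlib

/-!
# Linear lattices and the higher Arguesian identities: definitions
-/

set_option autoImplicit false

universe u v

namespace Pool.Agent.H73.LinLat

/-- A lattice `L` is linear if there are a set `S` and an injective lattice homomorphism `φ` from
`L` to the lattice `Setoid S` of all equivalence relations on `S` whose values commute pairwise
(for the composition of relations). -/
def IsLinear (L : Type u) [Lattice L] : Prop :=
  ∃ (S : Type v) (φ : LatticeHom L (Setoid S)), Function.Injective φ ∧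
    ∀ x y : L, Relation.Comp (φ x) (φ y) = Relation.Comp (φ y) (φ x)

/-- The indices `1, …, n - 1`. -/
theorem nonempty_indices {n : ℕ} (hn : 3 ≤ n) : (Finset.Icc 1 (n - 1)).Nonempty :=
  ⟨1, by simp; omega⟩

/-- The higher Arguesian identity `D_n` (`n ≥ 3`) in the variables `a_1, …, a_n`,
`b_1, …, b_n`:
`a_n ∧ ([⋀_{i=1}^{n-1} (a_i ∨ b_i)] ∨ b_n) ≤
  a_1 ∨ ([⋁_{i=1}^{n-1} ((a_i ∨ a_{i+1}) ∧ (b_i ∨ b_{i+1}))] ∧ (b_1 ∨ b_n))`. -/
def HigherArguesian {n : ℕ} (hn : 3 ≤ n) (L : Type u) [Lattice L] : Prop :=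
  ∀ a b : ℕ → L,
    a n ⊓ ((Finset.Icc 1 (n - 1)).inf' (nonempty_indices hn) (fun i => a i ⊔ b i) ⊔ b n) ≤
      a 1 ⊔ ((Finset.Icc 1 (n - 1)).sup' (nonempty_indices hn)
        (fun i => (a i ⊔ a (i + 1)) ⊓ (b i ⊔ b (i + 1))) ⊓ (b 1 ⊔ b n))

/-- A lattice is unbounded-order Arguesian if it satisfies `D_n` for every `n ≥ 3`. -/
def UnboundedOrderArguesian (L : Type u) [Lattice L] : Prop :=
  ∀ (n : ℕ) (hn : 3 ≤ n), HigherArguesian hn L

end Pool.Agent.H73.LinLat
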