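import Pool.Agent.H73.LinLat.Points

/-!
# The contradiction

A finite certificate: fourteen quadratic forms on `F₂⁴` (coded by lower triangular matrices), and a
pair of them for each of the thirty five lines of `PG(3, 2)`.
-/

set_option autoImplicit false

namespace Pool.Agent.H73.LinLat

/-- The vector with binary code `x`. -/
def vecOf (x : ℕ) : Vec := fun k => if x.testBit k.val then 1 else 0

/-- The lower triangular matrix with binary code `q`. -/
def matOf (q : ℕ) : Mat := fun i j =>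
  if j.val ≤ i.val ∧ q.testBit (i.val * (i.val + 1) / 2 + j.val) then 1 else 0

/-- The linear form with a given matrix. -/
def frm (F : Mat) : Mat →+ ZMod 2 where
  toFun z := ∑ i, ∑ j, F i j * z i j
  map_zero' := by simp
  map_add' a b := by simp [mul_add, Finset.sum_add_distrib]

theorem frm_apply (F z : Mat) : frm F z = ∑ i, ∑ j, F i j * z i j := rfl

theorem frm_add_left (F F' z : Mat) : frm (F + F') z = frm F z + frm F' z := by
  simp [frm_apply, add_mul, Finset.sum_add_distrib]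

/-- The finite condition for `v` to be admissible for the difference `F` of two forms. -/
def Chk (F : Mat) (v : Vec) : Prop :=
  (∀ b, ∑ a, (F a b + F b a) * v a = 0) ∧ ∑ a, ∑ b, F a b * (v a * v b) = 0

instance (F : Mat) (v : Vec) : Decidable (Chk F v) := by
  unfold Chk; infer_instance

theorem Chk.tens_add {F : Mat} {v : Vec} (h : Chk F v) (y : Vec) :
    frm F (tens v y + tens y v) = 0 := by
  have e : frm F (tens v y + tens y v) = ∑ b, y b * ∑ a, (F a b + F b a) * v a := by
    rw [frm_apply]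
    simp only [Pi.add_apply, tens_apply, mul_add, Finset.sum_add_distrib, Finset.mul_sum, add_mul]
    congr 1
    · rw [Finset.sum_comm]
      refine Finset.sum_congr rfl fun b _ => Finset.sum_congr rfl fun a _ => ?_
      ring
    · refine Finset.sum_congr rfl fun b _ => Finset.sum_congr rfl fun a _ => ?_
      ring
  rw [e]
  refine Finset.sum_eq_zero fun b _ => ?_
  rw [h.1 b, mul_zero]

theorem Chk.tens_self {F : Mat} {v : Vec} (h : Chk F v) : frm F (tens v v) = 0 := by
  rw [frm_apply]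
  simpa using h.2

theorem eq_of_frm_add {F F' z : Mat} (h : frm (F + F') z = 0) : frm F z = frm F' z := by
  rw [frm_add_left] at h
  generalize frm F z = a at *
  generalize frm F' z = b at *
  revert a b; decide

/-- The fourteen forms. -/
def forms : List ℕ := [838, 426, 901, 387, 444, 446, 302, 964, 603, 172, 42, 436, 428, 715]

/-- The `i`-th form. -/
def form (i : ℕ) : Mat := matOf (forms.getD i 0)

/-- The certificate: the line `{x, y, u}`, the pair of forms `i, j`, and the value of the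
difference of the forms on `x ⊗ y`. -/
def edges : List (ℕ × ℕ × ℕ × ℕ × ℕ × ℕ) :=
  [(1, 2, 3, 12, 9, 0), (1, 4, 5, 6, 1, 0), (1, 6, 7, 10, 1, 0), (1, 8, 9, 12, 4, 0),
   (1, 10, 11, 9, 4, 0), (1, 12, 13, 6, 5, 0), (1, 14, 15, 10, 5, 0), (2, 4, 6, 7, 2, 0),
   (2, 5, 7, 13, 1, 0), (2, 8, 10, 3, 1, 0), (2, 9, 11, 9, 2, 0), (2, 12, 14, 12, 7, 0),
   (2, 13, 15, 13, 3, 0), (3, 4, 7, 3, 0, 0), (3, 5, 6, 8, 5, 1), (3, 8, 11, 12, 11, 0),
   (3, 9, 10, 11, 9, 0), (3, 12, 15, 5, 0, 0), (3, 13, 14, 8, 3, 0), (4, 8, 12, 12, 1, 0),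
   (4, 9, 13, 12, 6, 0), (4, 10, 14, 7, 3, 0), (4, 11, 15, 2, 0, 0), (5, 8, 13, 12, 5, 0),
   (5, 9, 12, 6, 4, 0), (5, 10, 15, 13, 4, 1), (5, 11, 14, 12, 8, 0), (6, 8, 14, 11, 5, 0),
   (6, 9, 15, 10, 2, 0), (6, 10, 12, 7, 1, 1), (6, 11, 13, 11, 8, 1), (7, 8, 15, 4, 3, 0),
   (7, 9, 14, 11, 10, 0), (7, 10, 13, 13, 11, 0), (7, 11, 12, 4, 0, 1)]

/-- What has to be checked for an edge. -/
def EdgeOK (e : ℕ × ℕ × ℕ × ℕ × ℕ × ℕ) : Prop :=
  vecOf e.2.2.1 = vecOf e.1 + vecOf e.2.1 ∧
  Chk (form e.2.2.2.1 + form e.2.2.2.2.1) (vecOf e.1) ∧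
  Chk (form e.2.2.2.1 + form e.2.2.2.2.1) (vecOf e.2.1) ∧
  frm (form e.2.2.2.1 + form e.2.2.2.2.1) (tens (vecOf e.1) (vecOf e.2.1)) =
    (e.2.2.2.2.2 : ZMod 2)

instance (e : ℕ × ℕ × ℕ × ℕ × ℕ × ℕ) : Decidable (EdgeOK e) := by
  unfold EdgeOK; simp only [frm_apply]; infer_instance

theorem edges_ok : ∀ e ∈ edges, EdgeOK e := by
  decide +kernel

/-- The six codes of an edge. -/
def codes (e : ℕ × ℕ × ℕ × ℕ × ℕ × ℕ) : List ℕ :=
  [e.1 * 14 + e.2.2.2.1, e.1 * 14 + e.2.2.2.2.1, e.2.1 * 14 + e.2.2.2.1,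
   e.2.1 * 14 + e.2.2.2.2.1, e.2.2.1 * 14 + e.2.2.2.1, e.2.2.1 * 14 + e.2.2.2.2.1]

/-- Half of the codes. -/
def half : List ℕ :=
  [15, 18, 19, 20, 23, 24, 26, 29, 30, 31, 35, 37, 40, 41, 42, 45, 47, 50, 51, 53, 54, 56, 57, 58,
   59, 62, 63, 68, 71, 74, 75, 76, 78, 82, 83, 85, 86, 89, 91, 92, 94, 95, 98, 99, 101, 102, 108,
   109, 111, 113, 115, 116, 117, 123, 124, 124, 128, 130, 132, 135, 136, 137, 138, 141, 143, 144,
   147, 149, 151, 153, 154, 156, 158, 162, 163, 165, 166, 168, 169, 172, 173, 174, 175, 180, 185,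
   187, 188, 190, 193, 194, 195, 199, 201, 203, 204, 206, 207, 208, 210, 212, 213, 214, 215, 220,
   223]

theorem codes_perm : (edges.flatMap codes).Perm (half ++ half) := by
  decide +kernel

theorem final {A : Type*} [CommMonoid A] (g : ℕ → A) (hg : ∀ n, g n * g n = 1) (a : A)
    (ha : a * a = 1) (h : ∀ e ∈ edges, ((codes e).map g).prod = a ^ e.2.2.2.2.2) : a = 1 := by
  have h1 : ((edges.flatMap codes).map g).prod = (edges.map fun e => a ^ e.2.2.2.2.2).prod := by
    have : ∀ l : List (ℕ × ℕ × ℕ × ℕ × ℕ × ℕ),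
        (∀ e ∈ l, ((codes e).map g).prod = a ^ e.2.2.2.2.2) →
        ((l.flatMap codes).map g).prod = (l.map fun e => a ^ e.2.2.2.2.2).prod := by
      intro l
      induction l with
      | nil => intro _; simp
      | cons e l ih =>
        intro hl
        rw [List.flatMap_cons, List.map_append, List.prod_append, List.map_cons, List.prod_cons,
          hl e (by simp), ih (fun e he => hl e (by simp [he]))]
    exact this edges h
  have h2 : ((edges.flatMap codes).map g).prod = 1 := by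
    rw [(codes_perm.map g).prod_eq, List.map_append, List.prod_append]
    have : ∀ l : List ℕ, (l.map g).prod * (l.map g).prod = 1 := by
      intro l
      induction l with
      | nil => simp
      | cons n l ih =>
        rw [List.map_cons, List.prod_cons, mul_mul_mul_comm, hg, ih, one_mul]
    exact this half
  have h3 : (edges.map fun e => a ^ e.2.2.2.2.2).prod = a ^ 5 := by
    simp [edges]
    simp [pow_succ, mul_assoc]
  rw [h2, h3] at h1
  have h4 : a ^ 5 = a := by
    calc a ^ 5 = (a * a) * (a * a) * a := by simp [pow_succ, mul_assoc]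
      _ = a := by rw [ha, one_mul, one_mul]
  rw [h4] at h1
  exact h1.symm

end Pool.Agent.H73.LinLat
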