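import Mathlib

/-!
# A group of order `2 ^ 22`

`Gam` is the direct product of the group `F₂⁴ × (F₂⁴ ⊗ F₂⁴)` with the multiplication
`(v, z) (v', z') = (v + v', z + z' + v ⊗ v')` and of `F₂²`.
-/

set_option autoImplicit false

namespace Pool.Agent.H73.LinLat

/-- `F₂⁴`. -/
abbrev Vec := Fin 4 → ZMod 2

/-- `F₂⁴ ⊗ F₂⁴`, as matrices. -/
abbrev Mat := Fin 4 → Fin 4 → ZMod 2

/-- The elements of the group. -/
@[ext] structure Gam where
  /-- the noncentral part -/
  v : Vec
  /-- the central part -/
  z : Mat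
  /-- the extra direct factor -/
  d : ZMod 2 × ZMod 2

/-- `a ⊗ b`. -/
def tens (a b : Vec) : Mat := fun i j => a i * b j

@[simp] theorem tens_apply (a b : Vec) (i j : Fin 4) : tens a b i j = a i * b j := rfl

theorem zz (a : ZMod 2) : a + a = 0 := CharTwo.add_self_eq_zero a

theorem mm (a : Mat) : a + a = 0 := by
  funext i j; exact zz _

theorem vv (a : Vec) : a + a = 0 := by
  funext i; exact zz _

theorem dd (a : ZMod 2 × ZMod 2) : a + a = 0 := by
  ext <;> exact zz _

instance : Mul Gam := ⟨fun a b => ⟨a.v + b.v, a.z + b.z + tens a.v b.v, a.d + b.d⟩⟩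
instance : One Gam := ⟨⟨0, 0, 0⟩⟩
instance : Inv Gam := ⟨fun a => ⟨a.v, a.z + tens a.v a.v, a.d⟩⟩

@[simp] theorem mul_v (a b : Gam) : (a * b).v = a.v + b.v := rfl
@[simp] theorem mul_z (a b : Gam) : (a * b).z = a.z + b.z + tens a.v b.v := rfl
@[simp] theorem mul_d (a b : Gam) : (a * b).d = a.d + b.d := rfl
@[simp] theorem one_v : (1 : Gam).v = 0 := rfl
@[simp] theorem one_z : (1 : Gam).z = 0 := rfl
@[simp] theorem one_d : (1 : Gam).d = 0 := rfl
@[simp] theorem inv_v (a : Gam) : (a⁻¹).v = a.v := rfl
@[simp] theorem inv_z (a : Gam) : (a⁻¹).z = a.z + tens a.v a.v := rfl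
@[simp] theorem inv_d (a : Gam) : (a⁻¹).d = a.d := rfl

instance : Group Gam where
  mul_assoc a b c := by
    ext i
    · simp [add_assoc]
    · simp; ring
    · simp [add_assoc]
    · simp [add_assoc]
  one_mul a := by
    ext i <;> simp
  mul_one a := by
    ext i <;> simp
  inv_mul_cancel a := by
    ext i
    · simpa using zz _
    · simp only [mul_z, inv_z, inv_v, Pi.add_apply, tens_apply, one_z, Pi.zero_apply]
      generalize a.z i _ = p
      generalize a.v i = q
      rename_i j
      generalize a.v j = r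
      revert p q r; decide
    · simpa using zz _
    · simpa using zz _

instance : Finite Gam := by
  apply Finite.of_injective (fun g : Gam => (g.v, g.z, g.d))
  intro a b h
  simp only [Prod.mk.injEq] at h
  ext1
  · exact h.1
  · exact h.2.1
  · exact h.2.2

/-- The subgroup where the extra coordinate vanishes. -/
def GN : Subgroup Gam where
  carrier := {x | x.d = 0}
  mul_mem' {a b} ha hb := by
    simp only [Set.mem_setOf_eq] at *
    simp [ha, hb]
  one_mem' := rfl
  inv_mem' {a} ha := by simpa using ha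

theorem mem_GN {x : Gam} : x ∈ GN ↔ x.d = 0 := Iff.rfl

instance GN_normal : GN.Normal where
  conj_mem n hn g := by
    rw [mem_GN] at *
    simp [hn, dd]

/-- The extra direct factor. -/
def DN : Subgroup Gam where
  carrier := {x | x.v = 0 ∧ x.z = 0}
  mul_mem' {a b} ha hb := by
    simp only [Set.mem_setOf_eq] at *
    refine ⟨by simp [ha, hb], ?_⟩
    ext i j
    simp [ha, hb]
  one_mem' := ⟨rfl, rfl⟩
  inv_mem' {a} ha := by
    simp only [Set.mem_setOf_eq] at *
    refine ⟨by simp [ha], ?_⟩
    ext i j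
    simp [ha]

theorem mem_DN {x : Gam} : x ∈ DN ↔ x.v = 0 ∧ x.z = 0 := Iff.rfl

theorem conj_v (g n : Gam) : (g * n * g⁻¹).v = n.v := by
  simp only [mul_v, inv_v]
  rw [add_right_comm, vv, zero_add]

theorem conj_d (g n : Gam) : (g * n * g⁻¹).d = n.d := by
  simp only [mul_d, inv_d]
  rw [add_right_comm, dd, zero_add]

theorem conj_z (g n : Gam) : (g * n * g⁻¹).z = n.z + (tens g.v n.v + tens n.v g.v) := by
  funext i j
  simp only [mul_z, inv_z, inv_v, mul_v, Pi.add_apply, tens_apply]
  generalize g.z i j = a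
  generalize n.z i j = b
  generalize g.v i = c
  generalize n.v j = d
  generalize g.v j = e
  generalize n.v i = f
  revert a b c d e f; decide

instance DN_normal : DN.Normal where
  conj_mem n hn g := by
    rw [mem_DN] at *
    refine ⟨by rw [conj_v]; exact hn.1, ?_⟩
    rw [conj_z, hn.2, hn.1]
    ext i j
    simp

/-- Central subgroups. -/
def ZN (κ : AddSubgroup Mat) : Subgroup Gam where
  carrier := {x | x.v = 0 ∧ x.d = 0 ∧ x.z ∈ κ}
  mul_mem' {a b} ha hb := by
    simp only [Set.mem_setOf_eq] at *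
    refine ⟨by simp [ha, hb], by simp [ha, hb], ?_⟩
    have : (a * b).z = a.z + b.z := by
      ext i j; simp [ha.1]
    rw [this]
    exact κ.add_mem ha.2.2 hb.2.2
  one_mem' := ⟨rfl, rfl, κ.zero_mem⟩
  inv_mem' {a} ha := by
    simp only [Set.mem_setOf_eq] at *
    refine ⟨by simp [ha], by simp [ha], ?_⟩
    have : (a⁻¹).z = a.z := by
      ext i j; simp [ha.1]
    rw [this]
    exact ha.2.2

theorem mem_ZN {κ : AddSubgroup Mat} {x : Gam} : x ∈ ZN κ ↔ x.v = 0 ∧ x.d = 0 ∧ x.z ∈ κ := Iff.rfl

instance ZN_normal (κ : AddSubgroup Mat) : (ZN κ).Normal where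
  conj_mem n hn g := by
    rw [mem_ZN] at *
    refine ⟨by rw [conj_v]; exact hn.1, by rw [conj_d]; exact hn.2.1, ?_⟩
    have : (g * n * g⁻¹).z = n.z := by
      rw [conj_z, hn.1]
      ext i j
      simp
    rw [this]
    exact hn.2.2

/-- The conditions making `v` central modulo `κ`, of order two. -/
def Good (κ : AddSubgroup Mat) (v : Vec) : Prop :=
  (∀ y : Vec, tens v y + tens y v ∈ κ) ∧ tens v v ∈ κ

/-- The subgroup generated by `κ`, `(v, z, (1,0))` and `(u, y, (0,1))`. -/
def PN (κ : AddSubgroup Mat) (v u : Vec) (z y : Mat) (hv : Good κ v) (hu : Good κ u) :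
    Subgroup Gam where
  carrier := {x | x.v = x.d.1 • v + x.d.2 • u ∧
    x.z + (x.d.1 • z + x.d.2 • y + (x.d.1 * x.d.2) • tens v u) ∈ κ}
  mul_mem' {a b} ha hb := by
    simp only [Set.mem_setOf_eq] at *
    refine ⟨?_, ?_⟩
    · simp only [mul_v, ha.1, hb.1, mul_d, Prod.fst_add, Prod.snd_add, add_smul]
      abel
    · have h1 := κ.add_mem ha.2 hb.2
      have hvv : (a.d.1 * b.d.1) • tens v v ∈ κ := by
        have h := hv.2
        generalize a.d.1 * b.d.1 = c
        have : c = 0 ∨ c = 1 := by revert c; decide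
        rcases this with h0 | h0 <;> simp [h0, h, κ.zero_mem]
      have huu : (a.d.2 * b.d.2) • tens u u ∈ κ := by
        have h := hu.2
        generalize a.d.2 * b.d.2 = c
        have : c = 0 ∨ c = 1 := by revert c; decide
        rcases this with h0 | h0 <;> simp [h0, h, κ.zero_mem]
      have hvu : (a.d.2 * b.d.1) • (tens v u + tens u v) ∈ κ := by
        have h := hv.1 u
        generalize a.d.2 * b.d.1 = c
        have : c = 0 ∨ c = 1 := by revert c; decide
        rcases this with h0 | h0 <;> simp [h0, h, κ.zero_mem]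
      have h2 := κ.add_mem (κ.add_mem (κ.add_mem h1 hvv) huu) hvu
      convert h2 using 1
      funext i j
      simp only [mul_z, mul_d, Prod.fst_add, Prod.snd_add, Pi.add_apply, Pi.smul_apply,
        tens_apply, smul_eq_mul, ha.1, hb.1]
      generalize a.z i j = a1
      generalize b.z i j = a2
      generalize z i j = a3
      generalize y i j = a4
      have h2 : (2 : ZMod 2) = 0 := by decide
      linear_combination (a.d.1 * b.d.2 * (v i * u j)  ) * h2
  one_mem' := by
    refine ⟨by simp, ?_⟩
    simp [κ.zero_mem]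
  inv_mem' {a} ha := by
    simp only [Set.mem_setOf_eq] at *
    refine ⟨by simpa using ha.1, ?_⟩
    have hvv : (a.d.1) • tens v v ∈ κ := by
      have h := hv.2
      generalize a.d.1 = c
      have : c = 0 ∨ c = 1 := by revert c; decide
      rcases this with h0 | h0 <;> simp [h0, h, κ.zero_mem]
    have huu : (a.d.2) • tens u u ∈ κ := by
      have h := hu.2
      generalize a.d.2 = c
      have : c = 0 ∨ c = 1 := by revert c; decide
      rcases this with h0 | h0 <;> simp [h0, h, κ.zero_mem]
    have hvu : (a.d.1 * a.d.2) • (tens v u + tens u v) ∈ κ := by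
      have h := hv.1 u
      generalize a.d.1 * a.d.2 = c
      have : c = 0 ∨ c = 1 := by revert c; decide
      rcases this with h0 | h0 <;> simp [h0, h, κ.zero_mem]
    have h2 := κ.add_mem (κ.add_mem (κ.add_mem ha.2 hvv) huu) hvu
    convert h2 using 1
    funext i j
    simp only [inv_z, inv_d, Pi.add_apply, Pi.smul_apply, tens_apply, smul_eq_mul, ha.1]
    generalize a.z i j = a1
    generalize z i j = a3
    generalize y i j = a4
    generalize a.d.1 = b1
    generalize a.d.2 = b2
    generalize v i = c1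
    generalize v j = c2
    generalize u i = c3
    generalize u j = c4
    have h1 : b1 * b1 = b1 := by revert b1; decide
    have h2 : b2 * b2 = b2 := by revert b2; decide
    linear_combination (c1 * c2) * h1 + c3 * c4 * h2

theorem mem_PN {κ : AddSubgroup Mat} {v u : Vec} {z y : Mat} {hv : Good κ v} {hu : Good κ u}
    {x : Gam} : x ∈ PN κ v u z y hv hu ↔ x.v = x.d.1 • v + x.d.2 • u ∧
    x.z + (x.d.1 • z + x.d.2 • y + (x.d.1 * x.d.2) • tens v u) ∈ κ := Iff.rfl

instance PN_normal (κ : AddSubgroup Mat) (v u : Vec) (z y : Mat) (hv : Good κ v)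
    (hu : Good κ u) : (PN κ v u z y hv hu).Normal where
  conj_mem n hn g := by
    rw [mem_PN] at *
    refine ⟨by rw [conj_v, conj_d]; exact hn.1, ?_⟩
    rw [conj_z, conj_d]
    have h1 : n.d.1 • (tens v g.v + tens g.v v) ∈ κ := by
      have h := hv.1 g.v
      generalize n.d.1 = c
      have : c = 0 ∨ c = 1 := by revert c; decide
      rcases this with h0 | h0 <;> simp [h0, h, κ.zero_mem]
    have h2 : n.d.2 • (tens u g.v + tens g.v u) ∈ κ := by
      have h := hu.1 g.v
      generalize n.d.2 = c
      have : c = 0 ∨ c = 1 := by revert c; decide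
      rcases this with h0 | h0 <;> simp [h0, h, κ.zero_mem]
    have h3 := κ.add_mem (κ.add_mem hn.2 h1) h2
    convert h3 using 1
    funext i j
    simp only [Pi.add_apply, Pi.smul_apply, tens_apply, smul_eq_mul, hn.1]
    ring

end Pool.Agent.H73.LinLat
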