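import Pool.Agent.H73.LinLat.Group

/-!
# Labellings of pairs by normal subgroups

A representation of the dual of the lattice of normal subgroups by commuting equivalence relations
gives a labelling as in `Lab`.
-/

set_option autoImplicit false

namespace Pool.Agent.H73.LinLat

/-- A labelling of the pairs of elements of `S` by normal subgroups. -/
structure Lab (S : Type*) where
  /-- the label of a pair -/
  M : S → S → Subgroup Gam
  nrm : ∀ s t, (M s t).Normal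
  refl : ∀ s, M s s = ⊤
  symm : ∀ s t, M s t = M t s
  trans : ∀ s t u, M s t ⊓ M t u ≤ M s u
  fill : ∀ N N' : Subgroup Gam, N.Normal → N'.Normal → ∀ s u, N ⊓ N' ≤ M s u →
    ∃ t, N ≤ M s t ∧ N' ≤ M t u

variable {S : Type*} (L : Lab S)

namespace Lab

theorem mem_symm {s t : S} {x : Gam} (h : x ∈ L.M s t) : x ∈ L.M t s := by
  rwa [L.symm t s]

theorem mem_trans {s t u : S} {x : Gam} (h : x ∈ L.M s t) (h' : x ∈ L.M t u) : x ∈ L.M s u :=
  L.trans s t u ⟨h, h'⟩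

theorem mem_refl (s : S) (x : Gam) : x ∈ L.M s s := by
  rw [L.refl]; trivial

/-- The central elements in the label of a pair. -/
def kap (s t : S) : AddSubgroup Mat where
  carrier := {z | (⟨0, z, 0⟩ : Gam) ∈ L.M s t}
  add_mem' {a b} ha hb := by
    have h := (L.M s t).mul_mem ha hb
    have e : (⟨0, a, 0⟩ : Gam) * ⟨0, b, 0⟩ = ⟨0, a + b, 0⟩ := by
      ext i <;> simp
    rw [e] at h
    exact h
  zero_mem' := (L.M s t).one_mem
  neg_mem' {a} ha := by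
    have e : -a = a := by
      rw [neg_eq_iff_add_eq_zero]; exact mm a
    rw [e]
    exact ha

theorem mem_kap {s t : S} {z : Mat} : z ∈ L.kap s t ↔ (⟨0, z, 0⟩ : Gam) ∈ L.M s t := Iff.rfl

/-- `v` is central of order two modulo the label. -/
def Ad (v : Vec) (s t : S) : Prop := Good (L.kap s t) v

variable {L}

theorem Ad.symm {v : Vec} {s t : S} (h : L.Ad v s t) : L.Ad v t s :=
  ⟨fun y => L.mem_symm (h.1 y), L.mem_symm h.2⟩

theorem Ad.trans {v : Vec} {s t u : S} (h : L.Ad v s t) (h' : L.Ad v t u) : L.Ad v s u :=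
  ⟨fun y => L.mem_trans (h.1 y) (h'.1 y), L.mem_trans h.2 h'.2⟩

theorem Ad.add {v u : Vec} {s t : S} (h : L.Ad v s t) (h' : L.Ad u s t) : L.Ad (v + u) s t := by
  refine ⟨fun y => ?_, ?_⟩
  · have h1 := (L.kap s t).add_mem (h.1 y) (h'.1 y)
    convert h1 using 1
    funext i j
    simp
    ring
  · have h1 := (L.kap s t).add_mem (L.kap s t |>.add_mem h.2 h'.2) (h.1 u)
    convert h1 using 1
    funext i j
    simp
    ring

theorem ad_of_GN (v : Vec) {s t : S} (h : GN ≤ L.M s t) : L.Ad v s t :=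
  ⟨fun _ => h rfl, h rfl⟩

theorem ad_zero (s t : S) : L.Ad 0 s t := by
  refine ⟨fun y => ?_, ?_⟩
  · convert (L.kap s t).zero_mem using 1
    funext i j
    simp
  · convert (L.kap s t).zero_mem using 1
    funext i j
    simp

theorem ad_of_mem {v : Vec} {z : Mat} {s t : S} (h : (⟨v, z, 0⟩ : Gam) ∈ L.M s t) :
    L.Ad v s t := by
  refine ⟨fun y => ?_, ?_⟩
  · rw [mem_kap]
    have h1 := (L.nrm s t).conj_mem _ h (⟨y, 0, 0⟩ : Gam)
    have h2 := (L.M s t).mul_mem h1 ((L.M s t).inv_mem h)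
    convert h2 using 1
    ext i
    · simp only [mul_v, inv_v, Pi.zero_apply, Pi.add_apply]
      generalize y i = a
      generalize v i = b
      revert a b; decide
    · rename_i j
      simp only [mul_z, inv_z, inv_v, mul_v, Pi.zero_apply, Pi.add_apply, tens_apply]
      generalize z i j = c
      generalize y i = a
      generalize v i = b
      generalize y j = a'
      generalize v j = b'
      revert a b a' b' c; decide
    · simp
    · simp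
  · rw [mem_kap]
    have h2 := (L.M s t).mul_mem h h
    convert h2 using 1
    ext i
    · simp only [mul_v, Pi.zero_apply, Pi.add_apply]
      exact (zz _).symm
    · rename_i j
      simp only [mul_z, Pi.add_apply, tens_apply]
      rw [zz, zero_add]
    · simp
    · simp

theorem exists_fill2 {v u : Vec} (z y : Mat) {p s' : S} (hv : L.Ad v p s') (hu : L.Ad u p s') :
    ∃ p', (⟨v, z, (1, 0)⟩ : Gam) ∈ L.M p p' ∧ (⟨u, y, (0, 1)⟩ : Gam) ∈ L.M p p' ∧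
      GN ≤ L.M p' s' := by
  have hv' : Good (L.kap p s') v := hv
  have hu' : Good (L.kap p s') u := hu
  obtain ⟨t, h1, h2⟩ := L.fill (PN (L.kap p s') v u z y hv' hu') GN inferInstance inferInstance p s'
    (by
      rintro x ⟨hx0, hx'⟩
      have hx := mem_PN.1 hx0
      have hd : x.d = 0 := hx'
      rw [hd] at hx
      simp only [Prod.fst_zero, Prod.snd_zero, zero_smul, add_zero, mul_zero] at hx
      have e : x = ⟨0, x.z, 0⟩ := by
        ext1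
        · exact hx.1
        · rfl
        · exact hd
      rw [e]
      exact hx.2)
  refine ⟨t, h1 ?_, h1 ?_, h2⟩
  · rw [mem_PN]
    refine ⟨by simp, ?_⟩
    convert (L.kap p s').zero_mem using 1
    simp [mm]
  · rw [mem_PN]
    refine ⟨by simp, ?_⟩
    convert (L.kap p s').zero_mem using 1
    simp [mm]

theorem exists_fillD (s q : S) : ∃ p, GN ≤ L.M s p ∧ DN ≤ L.M p q := by
  apply L.fill GN DN inferInstance inferInstance
  rintro x ⟨hx, hx'⟩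
  have hd : x.d = 0 := hx
  have e : x = 1 := by
    ext1
    · exact hx'.1
    · exact hx'.2
    · exact hd
  rw [e]
  exact one_mem _

variable (L)

/-- Equality of the coordinate belonging to `(1, 1)`. -/
def st : Setoid S where
  r p q := (⟨0, 0, (1, 1)⟩ : Gam) ∈ L.M p q
  iseqv := ⟨fun s => L.mem_refl s _, fun h => L.mem_symm h, fun h h' => L.mem_trans h h'⟩

/-- The set of values of the coordinate belonging to `(1, 1)`. -/
abbrev X : Type _ := Quotient L.st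

variable {L}

theorem mk_eq {p q : S} :
    (Quotient.mk L.st p = Quotient.mk L.st q) ↔ (⟨0, 0, (1, 1)⟩ : Gam) ∈ L.M p q := by
  constructor
  · intro h
    exact Quotient.exact h
  · intro h
    exact Quotient.sound h

variable (L)

/-- The graph of the translation, on points. -/
def TR (v : Vec) (z : Mat) (s s' p p' : S) : Prop :=
  GN ≤ L.M p s ∧ GN ≤ L.M p' s' ∧ (⟨v, z, (1, 1)⟩ : Gam) ∈ L.M p p'

open Classical in
/-- The translation. -/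
noncomputable def T (v : Vec) (z : Mat) (s s' : S) (x : L.X) : L.X :=
  if h : ∃ x' : L.X, ∃ p p', Quotient.mk L.st p = x ∧ Quotient.mk L.st p' = x' ∧
    L.TR v z s s' p p' then h.choose else x

variable {L}

theorem mul_el (v u : Vec) (z y : Mat) (d e : ZMod 2 × ZMod 2) :
    (⟨v, z, d⟩ : Gam) * ⟨u, y, e⟩ = ⟨v + u, z + y + tens v u, d + e⟩ := rfl

theorem TR_unique {v : Vec} {z : Mat} {s s' p p' q q' : S} (h : L.TR v z s s' p p')
    (h' : L.TR v z s s' q q') (hpq : (⟨0, 0, (1, 1)⟩ : Gam) ∈ L.M p q) :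
    (⟨0, 0, (1, 1)⟩ : Gam) ∈ L.M p' q' := by
  have g0 : (⟨v, z, 0⟩ : Gam) ∈ GN := rfl
  have e1 : (⟨v, z, (1, 1)⟩ : Gam) = ⟨v, z, 0⟩ * ⟨0, 0, (1, 1)⟩ := by
    rw [mul_el]
    ext i <;> simp
  have e2 : (⟨0, 0, (1, 1)⟩ : Gam) = (⟨v, z, 0⟩ : Gam)⁻¹ * ⟨v, z, (1, 1)⟩ := by
    rw [e1]; group
  have hpq1 : (⟨v, z, 0⟩ : Gam) ∈ L.M p q :=
    L.mem_trans (h.1 g0) (L.mem_symm (h'.1 g0))
  have hpq2 : (⟨v, z, (1, 1)⟩ : Gam) ∈ L.M p q := by
    rw [e1]; exact mul_mem hpq1 hpq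
  have h3 : (⟨v, z, (1, 1)⟩ : Gam) ∈ L.M p' q' :=
    L.mem_trans (L.mem_symm h.2.2) (L.mem_trans hpq2 h'.2.2)
  have h4 : (⟨v, z, 0⟩ : Gam) ∈ L.M p' q' :=
    L.mem_trans (h.2.1 g0) (L.mem_symm (h'.2.1 g0))
  rw [e2]
  exact mul_mem (inv_mem h4) h3

theorem T_eq {v : Vec} {z : Mat} {s s' p p' : S} (h : L.TR v z s s' p p') :
    L.T v z s s' (Quotient.mk L.st p) = Quotient.mk L.st p' := by
  have hex : ∃ x' : L.X, ∃ q q', Quotient.mk L.st q = Quotient.mk L.st p ∧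
      Quotient.mk L.st q' = x' ∧ L.TR v z s s' q q' := ⟨_, p, p', rfl, rfl, h⟩
  have : L.T v z s s' (Quotient.mk L.st p) = hex.choose := by
    unfold T
    rw [dif_pos hex]
  rw [this]
  obtain ⟨q, q', h1, h2, h3⟩ := hex.choose_spec
  rw [← h2]
  rw [mk_eq] at h1 ⊢
  exact TR_unique h3 h h1

/-- Every point of `X` is represented by a point close to `s`. -/
theorem exists_rep (s : S) (x : L.X) : ∃ p, GN ≤ L.M p s ∧ Quotient.mk L.st p = x := by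
  obtain ⟨q, rfl⟩ := Quotient.exists_rep x
  obtain ⟨p, h1, h2⟩ := exists_fillD (L := L) s q
  refine ⟨p, by rwa [L.symm p s], ?_⟩
  rw [mk_eq]
  exact h2 ⟨rfl, rfl⟩

theorem exists_TR0 {v : Vec} (z : Mat) {s s' p : S} (h : L.Ad v s s') (hp : GN ≤ L.M p s) :
    ∃ p', L.TR v z s s' p p' ∧ (⟨v, z, (1, 0)⟩ : Gam) ∈ L.M p p' ∧
      (⟨0, 0, (0, 1)⟩ : Gam) ∈ L.M p p' := by
  obtain ⟨p', h1, h2, h3⟩ := exists_fill2 (L := L) z 0 ((ad_of_GN v hp).trans h) (ad_zero p s')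
  refine ⟨p', ⟨hp, h3, ?_⟩, h1, h2⟩
  have := mul_mem h1 h2
  rw [mul_el] at this
  convert this using 1
  ext i <;> simp

theorem exists_TR1 {v : Vec} (z : Mat) {s s' p : S} (h : L.Ad v s s') (hp : GN ≤ L.M p s) :
    ∃ p', L.TR v z s s' p p' ∧ (⟨v, z, (0, 1)⟩ : Gam) ∈ L.M p p' ∧
      (⟨0, 0, (1, 0)⟩ : Gam) ∈ L.M p p' := by
  obtain ⟨p', h1, h2, h3⟩ := exists_fill2 (L := L) 0 z (ad_zero p s') ((ad_of_GN v hp).trans h)
  refine ⟨p', ⟨hp, h3, ?_⟩, h2, h1⟩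
  have := mul_mem h1 h2
  rw [mul_el] at this
  convert this using 1
  ext i <;> simp

theorem T_trans {v : Vec} (z : Mat) {s s' s'' : S} (h : L.Ad v s s') (h' : L.Ad v s' s'')
    (x : L.X) : L.T v z s' s'' (L.T v z s s' x) = L.T v z s s'' x := by
  obtain ⟨p, hp, rfl⟩ := exists_rep s x
  obtain ⟨p', hp', -⟩ := exists_TR0 z h hp
  obtain ⟨p'', hp'', -⟩ := exists_TR0 z h' hp'.2.1
  rw [T_eq hp', T_eq hp'']
  rw [T_eq (p' := p'')]
  exact ⟨hp, hp''.2.1, L.mem_trans hp'.2.2 hp''.2.2⟩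

theorem T_one {v : Vec} {z : Mat} {s s' : S} (h : (⟨v, z, 0⟩ : Gam) ∈ L.M s s') (x : L.X) :
    L.T v z s s' x = x := by
  obtain ⟨p, hp, rfl⟩ := exists_rep s x
  obtain ⟨p', hp', h1, h2⟩ := exists_TR0 z (ad_of_mem h) hp
  rw [T_eq hp', mk_eq]
  have g0 : (⟨v, z, 0⟩ : Gam) ∈ GN := rfl
  have h3 : (⟨v, z, 0⟩ : Gam) ∈ L.M p' p :=
    L.mem_trans (hp'.2.1 g0) (L.mem_trans (L.mem_symm h) (L.mem_symm (hp g0)))
  have e2 : (⟨0, 0, (1, 1)⟩ : Gam) = (⟨v, z, 0⟩ : Gam)⁻¹ * ⟨v, z, (1, 1)⟩ := by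
    have e1 : (⟨v, z, (1, 1)⟩ : Gam) = ⟨v, z, 0⟩ * ⟨0, 0, (1, 1)⟩ := by
      rw [mul_el]
      ext i <;> simp
    rw [e1]; group
  rw [e2]
  exact mul_mem (inv_mem h3) (L.mem_symm hp'.2.2)

theorem mem_of_T {v : Vec} {z : Mat} {s s' : S} (h : L.Ad v s s') {x : L.X}
    (hx : L.T v z s s' x = x) : (⟨v, z, 0⟩ : Gam) ∈ L.M s s' := by
  obtain ⟨p, hp, rfl⟩ := exists_rep s x
  obtain ⟨p', hp', h1, h2⟩ := exists_TR0 z h hp
  rw [T_eq hp', mk_eq] at hx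
  have g0 : (⟨v, z, 0⟩ : Gam) ∈ GN := rfl
  have e2 : (⟨v, z, 0⟩ : Gam) = (⟨v, z, (1, 1)⟩ : Gam) * ⟨0, 0, (1, 1)⟩ := by
    rw [mul_el]
    ext i <;> simp
    all_goals rfl
  have h3 : (⟨v, z, 0⟩ : Gam) ∈ L.M p p' := by
    rw [e2]
    exact mul_mem hp'.2.2 (L.mem_symm hx)
  exact L.mem_trans (L.mem_symm (hp g0)) (L.mem_trans h3 (hp'.2.1 g0))

/-- The translations are multiplicative. -/
theorem T_mul {v u : Vec} (z y : Mat) {s s' : S} (hv : L.Ad v s s') (hu : L.Ad u s s')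
    (x : L.X) :
    L.T v z s s' (L.T u y s s' x) = L.T (v + u) (z + y + tens v u) s s' x := by
  obtain ⟨p, hp, rfl⟩ := exists_rep s x
  obtain ⟨p1, hp1, h1a, h1b⟩ := exists_TR1 y hu hp
  obtain ⟨q, hq1, hq2⟩ := exists_fillD (L := L) s p1
  have hqs : GN ≤ L.M q s := by rwa [L.symm q s]
  obtain ⟨q', hq', h2a, h2b⟩ := exists_TR0 z hv hqs
  have e1 : Quotient.mk L.st p1 = Quotient.mk L.st q := by
    rw [mk_eq]; exact L.mem_symm (hq2 ⟨rfl, rfl⟩)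
  rw [T_eq hp1, e1, T_eq hq']
  rw [T_eq (p' := q')]
  refine ⟨hp, hq'.2.1, ?_⟩
  have gv : (⟨v, z, 0⟩ : Gam) ∈ GN := rfl
  have gu : (⟨u, y, 0⟩ : Gam) ∈ GN := rfl
  have d0 : (⟨0, 0, (1, 0)⟩ : Gam) ∈ DN := ⟨rfl, rfl⟩
  have d1 : (⟨0, 0, (0, 1)⟩ : Gam) ∈ DN := ⟨rfl, rfl⟩
  have ea : (⟨v, z, (1, 0)⟩ : Gam) = ⟨v, z, 0⟩ * ⟨0, 0, (1, 0)⟩ := by
    rw [mul_el]
    ext i <;> simp
  have eb : (⟨u, y, (0, 1)⟩ : Gam) = ⟨u, y, 0⟩ * ⟨0, 0, (0, 1)⟩ := by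
    rw [mul_el]
    ext i <;> simp
  -- the first element
  have k1 : (⟨v, z, (1, 0)⟩ : Gam) ∈ L.M p q' := by
    refine L.mem_trans (t := q) ?_ h2a
    rw [ea]
    refine mul_mem (L.mem_trans (hp gv) (L.mem_symm (hqs gv))) ?_
    exact L.mem_trans h1b (L.mem_symm (hq2 d0))
  have k2 : (⟨u, y, (0, 1)⟩ : Gam) ∈ L.M p q' := by
    refine L.mem_trans (t := p1) h1a ?_
    rw [eb]
    refine mul_mem (L.mem_trans (hp1.2.1 gu) (L.mem_symm (hq'.2.1 gu))) ?_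
    exact L.mem_trans (L.mem_symm (hq2 d1)) h2b
  have k3 := mul_mem k1 k2
  rw [mul_el] at k3
  convert k3 using 1
  ext i <;> simp

/-- The translations commute. -/
theorem T_comm {v u : Vec} (z y : Mat) {s s' r r' : S} (hv : L.Ad v s s') (hu : L.Ad u r r')
    (x : L.X) :
    L.T v z s s' (L.T u y r r' x) = L.T u y r r' (L.T v z s s' x) := by
  have gv : (⟨v, z, 0⟩ : Gam) ∈ GN := rfl
  have gu : (⟨u, y, 0⟩ : Gam) ∈ GN := rfl
  have d0 : (⟨0, 0, (1, 0)⟩ : Gam) ∈ DN := ⟨rfl, rfl⟩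
  have d1 : (⟨0, 0, (0, 1)⟩ : Gam) ∈ DN := ⟨rfl, rfl⟩
  have d2 : (⟨0, 0, (1, 1)⟩ : Gam) ∈ DN := ⟨rfl, rfl⟩
  have ea : (⟨v, z, (1, 0)⟩ : Gam) = ⟨v, z, 0⟩ * ⟨0, 0, (1, 0)⟩ := by
    rw [mul_el]
    ext i <;> simp
  have eb : (⟨u, y, (0, 1)⟩ : Gam) = ⟨u, y, 0⟩ * ⟨0, 0, (0, 1)⟩ := by
    rw [mul_el]
    ext i <;> simp
  have ec : (⟨0, 0, (1, 1)⟩ : Gam) = ⟨0, 0, (1, 0)⟩ * ⟨0, 0, (0, 1)⟩ := by
    rw [mul_el]
    ext i <;> simp
  have ea' : (⟨0, 0, (1, 0)⟩ : Gam) = (⟨v, z, 0⟩ : Gam)⁻¹ * ⟨v, z, (1, 0)⟩ := by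
    rw [ea]; group
  have eb' : (⟨0, 0, (0, 1)⟩ : Gam) = (⟨u, y, 0⟩ : Gam)⁻¹ * ⟨u, y, (0, 1)⟩ := by
    rw [eb]; group
  obtain ⟨p, hp, rfl⟩ := exists_rep r x
  -- first order
  obtain ⟨p1, hp1, h1a, h1b⟩ := exists_TR1 y hu hp
  obtain ⟨q, hq1, hq2⟩ := exists_fillD (L := L) s p1
  have hqs : GN ≤ L.M q s := by rwa [L.symm q s]
  obtain ⟨q', hq', h2a, h2b⟩ := exists_TR0 z hv hqs
  have e1 : Quotient.mk L.st p1 = Quotient.mk L.st q := by
    rw [mk_eq]; exact L.mem_symm (hq2 d2)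
  rw [T_eq hp1, e1, T_eq hq']
  -- second order
  obtain ⟨a, ha1, ha2⟩ := exists_fillD (L := L) s p
  have has : GN ≤ L.M a s := by rwa [L.symm a s]
  obtain ⟨a', ha', h3a, h3b⟩ := exists_TR0 z hv has
  obtain ⟨b, hb1, hb2⟩ := exists_fillD (L := L) r a'
  have hbr : GN ≤ L.M b r := by rwa [L.symm b r]
  obtain ⟨b', hb', h4a, h4b⟩ := exists_TR1 y hu hbr
  have e2 : Quotient.mk L.st p = Quotient.mk L.st a := by
    rw [mk_eq]; exact L.mem_symm (ha2 d2)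
  have e3 : Quotient.mk L.st a' = Quotient.mk L.st b := by
    rw [mk_eq]; exact L.mem_symm (hb2 d2)
  rw [e2, T_eq ha', e3, T_eq hb', mk_eq, ec]
  refine mul_mem ?_ ?_
  · -- the coordinate of `(1, 0)`
    -- `q ~ p1 ~ p ~ a`
    have k1 : (⟨0, 0, (1, 0)⟩ : Gam) ∈ L.M q a :=
      L.mem_trans (hq2 d0) (L.mem_trans (L.mem_symm h1b) (L.mem_symm (ha2 d0)))
    have k2 : (⟨v, z, (1, 0)⟩ : Gam) ∈ L.M q a := by
      rw [ea]
      exact mul_mem (L.mem_trans (hqs gv) (L.mem_symm (has gv))) k1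
    have k3 : (⟨v, z, (1, 0)⟩ : Gam) ∈ L.M q' a' :=
      L.mem_trans (L.mem_symm h2a) (L.mem_trans k2 h3a)
    have k4 : (⟨0, 0, (1, 0)⟩ : Gam) ∈ L.M q' a' := by
      rw [ea']
      exact mul_mem (inv_mem (L.mem_trans (hq'.2.1 gv) (L.mem_symm (ha'.2.1 gv)))) k3
    exact L.mem_trans k4 (L.mem_trans (L.mem_symm (hb2 d0)) h4b)
  · -- the coordinate of `(0, 1)`
    have k1 : (⟨0, 0, (0, 1)⟩ : Gam) ∈ L.M p b :=
      L.mem_trans (L.mem_symm (ha2 d1)) (L.mem_trans h3b (L.mem_symm (hb2 d1)))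
    have k2 : (⟨u, y, (0, 1)⟩ : Gam) ∈ L.M p b := by
      rw [eb]
      exact mul_mem (L.mem_trans (hp gu) (L.mem_symm (hbr gu))) k1
    have k3 : (⟨u, y, (0, 1)⟩ : Gam) ∈ L.M p1 b' :=
      L.mem_trans (L.mem_symm h1a) (L.mem_trans k2 h4a)
    have k4 : (⟨0, 0, (0, 1)⟩ : Gam) ∈ L.M p1 b' := by
      rw [eb']
      exact mul_mem (inv_mem (L.mem_trans (hp1.2.1 gu) (L.mem_symm (hb'.2.1 gu)))) k3
    exact L.mem_trans (L.mem_symm h2b) (L.mem_trans (hq2 d1) k4)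

theorem T_sq {v : Vec} (z : Mat) {s s' : S} (hv : L.Ad v s s') (x : L.X) :
    L.T v z s s' (L.T v z s s' x) = x := by
  rw [T_mul z z hv hv]
  apply T_one
  have := hv.2
  rw [mem_kap] at this
  convert this using 1
  rw [vv, mm, zero_add]

end Lab

end Pool.Agent.H73.LinLat
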