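import Pool.Agent.H73.LinLat.Defs

/-!
# The lattice of normal subgroups: it is linear, and its dual satisfies all `D_n`
-/

set_option autoImplicit false

universe u v

namespace Pool.Agent.H73.LinLat

/-- The lattice of normal subgroups of a group. -/
def normalSublattice (G : Type u) [Group G] : Sublattice (Subgroup G) where
  carrier := {N | N.Normal}
  supClosed' := by
    intro N hN M hM
    have hN' : N.Normal := hN
    have hM' : M.Normal := hM
    exact Subgroup.sup_normal N M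
  infClosed' := by
    intro N hN M hM
    have hN' : N.Normal := hN
    have hM' : M.Normal := hM
    exact Subgroup.normal_inf_normal N M

/-- The lattice of normal subgroups of a group, as a type. -/
abbrev NS (G : Type u) [Group G] : Type u := normalSublattice G

theorem NS.normal {G : Type u} [Group G] (N : NS G) : (N : Subgroup G).Normal := N.2

theorem NS.mem_sup {G : Type u} [Group G] {N M : NS G} {x : G} (h : x ∈ (N ⊔ M : NS G).1) :
    ∃ y ∈ N.1, ∃ z ∈ M.1, y * z = x := by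
  have hN := N.normal
  have hM := M.normal
  have h' : x ∈ (N.1 ⊔ M.1 : Subgroup G) := h
  rwa [Subgroup.mem_sup_of_normal_left] at h'

theorem NS.mem_inf {G : Type u} [Group G] {N M : NS G} {x : G} :
    x ∈ (N ⊓ M : NS G).1 ↔ x ∈ N.1 ∧ x ∈ M.1 := Iff.rfl

theorem linear_NS (G : Type u) [Group G] : IsLinear.{u, u} (NS G) := by
  have hinf : ∀ N M : NS G, QuotientGroup.leftRel (N ⊓ M : NS G).1 =
      QuotientGroup.leftRel N.1 ⊓ QuotientGroup.leftRel M.1 := by
    intro N M
    ext x y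
    rw [Setoid.inf_iff_and, QuotientGroup.leftRel_apply, QuotientGroup.leftRel_apply,
      QuotientGroup.leftRel_apply]
    rfl
  have hcomp : ∀ (N M : NS G) (x y : G), QuotientGroup.leftRel (N ⊔ M : NS G).1 x y →
      ∃ z, QuotientGroup.leftRel N.1 x z ∧ QuotientGroup.leftRel M.1 z y := by
    intro N M x y h
    rw [QuotientGroup.leftRel_apply] at h
    obtain ⟨a, ha, b, hb, hab⟩ := NS.mem_sup h
    refine ⟨x * a, ?_, ?_⟩
    · rw [QuotientGroup.leftRel_apply]
      simpa using ha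
    · rw [QuotientGroup.leftRel_apply]
      have : (x * a)⁻¹ * y = b := by
        rw [mul_inv_rev, mul_assoc, ← hab]
        group
      rwa [this]
  have hle : ∀ (N M : NS G) (x y z : G), QuotientGroup.leftRel N.1 x z →
      QuotientGroup.leftRel M.1 z y → QuotientGroup.leftRel (N ⊔ M : NS G).1 x y := by
    intro N M x y z h h'
    rw [QuotientGroup.leftRel_apply] at *
    have e : x⁻¹ * y = (x⁻¹ * z) * (z⁻¹ * y) := by group
    rw [e]
    exact mul_mem ((le_sup_left : N ≤ N ⊔ M) h) ((le_sup_right : M ≤ N ⊔ M) h')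
  refine ⟨G, ⟨⟨fun N => QuotientGroup.leftRel N.1, ?_⟩, ?_⟩, ?_, ?_⟩
  · intro N M
    apply le_antisymm
    · intro x y h
      obtain ⟨z, h1, h2⟩ := hcomp N M x y h
      exact Setoid.trans' _ ((le_sup_left : QuotientGroup.leftRel N.1 ≤ _) h1)
        ((le_sup_right : QuotientGroup.leftRel M.1 ≤ _) h2)
    · apply sup_le
      · intro x y h
        exact hle N M x y y h (Setoid.refl' _ _)
      · intro x y h
        exact hle N M x y x (Setoid.refl' _ _) h
  · exact hinf
  · intro N M h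
    have h' : QuotientGroup.leftRel N.1 = QuotientGroup.leftRel M.1 := h
    apply Subtype.ext
    ext x
    have h1 : QuotientGroup.leftRel N.1 1 x ↔ QuotientGroup.leftRel M.1 1 x := by rw [h']
    rw [QuotientGroup.leftRel_apply, QuotientGroup.leftRel_apply] at h1
    simpa using h1
  · intro N M
    funext x y
    apply propext
    constructor
    · rintro ⟨z, h1, h2⟩
      have h3 := hle N M x y z h1 h2
      rw [sup_comm] at h3
      exact hcomp M N x y h3
    · rintro ⟨z, h1, h2⟩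
      have h3 := hle M N x y z h1 h2
      rw [sup_comm] at h3
      exact hcomp N M x y h3

open OrderDual in
theorem dual_NS_arguesian (G : Type u) [Group G] : UnboundedOrderArguesian (NS G)ᵒᵈ := by
  intro n hn a b
  set I := (Finset.Icc 1 (n - 1)).inf' (nonempty_indices hn) (fun i => a i ⊔ b i) with hI
  set J := (Finset.Icc 1 (n - 1)).sup' (nonempty_indices hn)
        (fun i => (a i ⊔ a (i + 1)) ⊓ (b i ⊔ b (i + 1))) with hJ
  have hI' : ∀ i ∈ Finset.Icc 1 (n - 1), ofDual (a i) ⊓ ofDual (b i) ≤ ofDual I := by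
    intro i hi
    have : I ≤ a i ⊔ b i := Finset.inf'_le _ hi
    exact this
  have hJ' : ∀ i ∈ Finset.Icc 1 (n - 1), ofDual J ≤ (ofDual (a i) ⊓ ofDual (a (i + 1))) ⊔
      (ofDual (b i) ⊓ ofDual (b (i + 1))) := by
    intro i hi
    have : (a i ⊔ a (i + 1)) ⊓ (b i ⊔ b (i + 1)) ≤ J :=
      Finset.le_sup' (fun i => (a i ⊔ a (i + 1)) ⊓ (b i ⊔ b (i + 1))) hi
    exact this
  change (ofDual (a 1) ⊓ (ofDual J ⊔ (ofDual (b 1) ⊓ ofDual (b n))) : NS G) ≤
    ofDual (a n) ⊔ (ofDual I ⊓ ofDual (b n))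
  generalize ofDual I = I' at *
  generalize ofDual J = J' at *
  intro g hg
  have hg1 : g ∈ (ofDual (a 1)).1 := hg.1
  obtain ⟨w, hw, y, hy, rfl⟩ := NS.mem_sup hg.2
  have hyb : y ∈ (ofDual (b 1)).1 ∧ y ∈ (ofDual (b n)).1 := hy
  -- the decompositions of `w`
  have hdec : ∀ i, ∃ p, i ∈ Finset.Icc 1 (n - 1) → p ∈ (ofDual (a i)).1 ∧
      p ∈ (ofDual (a (i + 1))).1 ∧ p⁻¹ * w ∈ (ofDual (b i)).1 ∧
      p⁻¹ * w ∈ (ofDual (b (i + 1))).1 := by
    intro i
    by_cases hi : i ∈ Finset.Icc 1 (n - 1)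
    · obtain ⟨p, hp, q, hq, hpq⟩ := NS.mem_sup (hJ' i hi hw)
      refine ⟨p, fun _ => ⟨hp.1, hp.2, ?_, ?_⟩⟩
      · rw [← hpq, inv_mul_cancel_left]; exact hq.1
      · rw [← hpq, inv_mul_cancel_left]; exact hq.2
    · exact ⟨1, fun h => absurd h hi⟩
  choose p hp using hdec
  -- telescoping
  have htel : ∀ i ∈ Finset.Icc 1 (n - 1), (w * y)⁻¹ * p i ∈ I'.1 := by
    intro i hi
    rw [Finset.mem_Icc] at hi
    obtain ⟨h1, h2⟩ := hi
    induction i, h1 using Nat.le_induction with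
    | base =>
      have h3 := hp 1 (by rw [Finset.mem_Icc]; omega)
      apply hI' 1 (by rw [Finset.mem_Icc]; omega)
      rw [NS.mem_inf]
      refine ⟨?_, ?_⟩
      · exact mul_mem (inv_mem hg1) h3.1
      · have e : (w * y)⁻¹ * p 1 = y⁻¹ * (((p 1)⁻¹ * w)⁻¹) := by group
        rw [e]
        exact mul_mem (inv_mem hyb.1) (inv_mem h3.2.2.1)
    | succ i h1 ih =>
      have h3 := hp i (by rw [Finset.mem_Icc]; omega)
      have h4 := hp (i + 1) (by rw [Finset.mem_Icc]; omega)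
      have h5 : (p i)⁻¹ * p (i + 1) ∈ I'.1 := by
        apply hI' (i + 1) (by rw [Finset.mem_Icc]; omega)
        rw [NS.mem_inf]
        refine ⟨?_, ?_⟩
        · exact mul_mem (inv_mem h3.2.1) h4.1
        · have e : (p i)⁻¹ * p (i + 1) = ((p i)⁻¹ * w) * ((p (i + 1))⁻¹ * w)⁻¹ := by group
          rw [e]
          exact mul_mem h3.2.2.2 (inv_mem h4.2.2.1)
      have e : (w * y)⁻¹ * p (i + 1) = ((w * y)⁻¹ * p i) * ((p i)⁻¹ * p (i + 1)) := by group
      rw [e]
      exact mul_mem (ih (by omega)) h5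
  have hn1 : n - 1 ∈ Finset.Icc 1 (n - 1) := by rw [Finset.mem_Icc]; omega
  have h1 := hp (n - 1) hn1
  have e0 : n - 1 + 1 = n := by omega
  rw [e0] at h1
  have h2 := htel (n - 1) hn1
  have h3 : (w * y)⁻¹ * p (n - 1) ∈ (ofDual (b n)).1 := by
    have e : (w * y)⁻¹ * p (n - 1) = y⁻¹ * (((p (n - 1))⁻¹ * w)⁻¹) := by group
    rw [e]
    exact mul_mem (inv_mem hyb.2) (inv_mem h1.2.2.2)
  have e : w * y = p (n - 1) * ((w * y)⁻¹ * p (n - 1))⁻¹ := by group
  rw [e]
  refine mul_mem ((le_sup_left : ofDual (a n) ≤ ofDual (a n) ⊔ (I' ⊓ ofDual (b n))) h1.2.1) ?_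
  exact inv_mem ((le_sup_right : I' ⊓ ofDual (b n) ≤ ofDual (a n) ⊔ (I' ⊓ ofDual (b n))) ⟨h2, h3⟩)

end Pool.Agent.H73.LinLat
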