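import Pool.Agent.H73.LinLat.Label

/-!
# Points with prescribed central coordinates
-/

set_option autoImplicit false

namespace Pool.Agent.H73.LinLat

/-- `{0, z}`. -/
def pair (z : Mat) : AddSubgroup Mat where
  carrier := {y | y = 0 ∨ y = z}
  add_mem' {a b} ha hb := by
    rcases ha with rfl | rfl <;> rcases hb with rfl | rfl
    · left; simp
    · right; simp
    · right; simp
    · left; exact mm _
  zero_mem' := Or.inl rfl
  neg_mem' {a} ha := by
    have e : -a = a := by
      rw [neg_eq_iff_add_eq_zero]; exact mm a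
    rw [e]
    exact ha

theorem mem_pair {y z : Mat} : y ∈ pair z ↔ y = 0 ∨ y = z := Iff.rfl

theorem add_eq_zero' {a b : Mat} : a + b = 0 ↔ a = b := by
  constructor
  · intro h
    have : a + b + b = b := by rw [h, zero_add]
    rwa [add_assoc, mm, add_zero] at this
  · rintro rfl
    exact mm _

namespace Lab

variable {S : Type*} {L : Lab S}

theorem fillZ {κ κ' : AddSubgroup Mat} (h : ∀ z ∈ κ, z ∈ κ' → z = 0) (s u : S) :
    ∃ t, ZN κ ≤ L.M s t ∧ ZN κ' ≤ L.M t u := by
  apply L.fill (ZN κ) (ZN κ') inferInstance inferInstance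
  rintro x ⟨hx, hx'⟩
  have h1 := mem_ZN.1 hx
  have h2 := mem_ZN.1 hx'
  have e : x = 1 := by
    ext1
    · exact h1.1
    · exact h _ h1.2.2 h2.2.2
    · exact h1.2.1
  rw [e]
  exact one_mem _

theorem T_zero_mul (z y : Mat) (s s' : S) (x : L.X) :
    L.T 0 z s s' (L.T 0 y s s' x) = L.T 0 (z + y) s s' x := by
  rw [T_mul z y (ad_zero s s') (ad_zero s s')]
  have e : z + y + tens 0 0 = z + y := by ext i j; simp
  rw [e, add_zero]

theorem T_symm {v : Vec} {z : Mat} {s s' : S} (h : L.Ad v s s') (x : L.X) :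
    L.T v z s' s x = L.T v z s s' x := by
  have h1 : L.T v z s' s (L.T v z s s' (L.T v z s s' x)) = L.T v z s s' x := by
    rw [T_trans z h h.symm]
    exact T_one (L.mem_refl _ _) _
  rwa [T_sq z h] at h1

theorem exists_r {z0 z : Mat} (hz : z ≠ 0) (o o' : S) :
    ∃ r, ∀ x, L.T 0 z o r x = L.T 0 z0 o o' x := by
  by_cases h : z = z0
  · subst h
    exact ⟨o', fun _ => rfl⟩
  · obtain ⟨r, h1, h2⟩ := fillZ (L := L) (κ := pair (z + z0)) (κ' := pair z0) (by
      intro y hy hy'
      rw [mem_pair] at hy hy'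
      rcases hy with hy | hy
      · exact hy
      rcases hy' with hy' | hy'
      · exact hy'
      exfalso
      apply hz
      rw [hy] at hy'
      have : z + z0 + z0 = z0 + z0 := by rw [hy']
      rwa [add_assoc, mm, add_zero] at this) o o'
    refine ⟨r, fun x => ?_⟩
    have k1 : (⟨0, z + z0, 0⟩ : Gam) ∈ L.M o r := h1 ⟨rfl, rfl, Or.inr rfl⟩
    have k2 : (⟨0, z0, 0⟩ : Gam) ∈ L.M r o' := h2 ⟨rfl, rfl, Or.inr rfl⟩
    have e1 : z = (z + z0) + z0 := by rw [add_assoc, mm, add_zero]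
    rw [e1, ← T_zero_mul, T_one k1]
    rw [← T_trans z0 (ad_zero o r) (ad_zero r o')]
    rw [T_one k2]

theorem exists_s {z0 : Mat} (ζ : Mat →+ ZMod 2) (o o' : S) :
    ∃ s, ∀ z x, L.T 0 z o s x = if ζ z = 0 then x else L.T 0 z0 o o' x := by
  by_cases h : ∀ z, ζ z = 0
  · refine ⟨o, fun z x => ?_⟩
    rw [if_pos (h z)]
    exact T_one (L.mem_refl _ _) _
  · push Not at h
    obtain ⟨z1, hz1⟩ := h
    have hz0 : z1 ≠ 0 := by
      rintro rfl
      exact hz1 (map_zero ζ)
    obtain ⟨r, hr⟩ := exists_r (L := L) (z0 := z0) hz0 o o'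
    obtain ⟨s, h1, h2⟩ := fillZ (L := L) (κ := ζ.ker) (κ' := pair z1) (by
      intro y hy hy'
      rw [mem_pair] at hy'
      rcases hy' with hy' | hy'
      · exact hy'
      exfalso
      rw [hy'] at hy
      exact hz1 hy) o r
    refine ⟨s, fun z x => ?_⟩
    have k2 : (⟨0, z1, 0⟩ : Gam) ∈ L.M s r := h2 ⟨rfl, rfl, Or.inr rfl⟩
    have key : ∀ y, ζ y = 0 → ∀ x, L.T 0 y o s x = x := by
      intro y hy x
      exact T_one (h1 ⟨rfl, rfl, hy⟩) x
    split_ifs with hz
    · exact key z hz x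
    · have e : ζ (z1 + z) = 0 := by
        rw [map_add]
        generalize ζ z1 = a at *
        generalize ζ z = b at *
        revert a b; decide
      have e1 : z = z1 + (z1 + z) := by
        rw [← add_assoc, mm, zero_add]
      rw [e1, ← T_zero_mul, key _ e]
      rw [← hr x, ← T_trans z1 (ad_zero o s) (ad_zero s r), T_one k2]

end Lab

end Pool.Agent.H73.LinLat
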