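import Pool.Agent.H73.LinLat.Normal
import Pool.Agent.H73.LinLat.Contra

/-!
# The dual of the lattice of normal subgroups of `Gam` is not linear
-/

set_option autoImplicit false

universe u v

namespace Pool.Agent.H73.LinLat

/-- The join of two commuting equivalence relations is their composition. -/
theorem sup_comp {S : Type v} {r s : Setoid S}
    (h : Relation.Comp r s = Relation.Comp s r) {x y : S} (hxy : (r ⊔ s) x y) :
    ∃ z, r x z ∧ s z y := by
  have hc : ∀ a b, Relation.Comp r s a b → Relation.Comp s r a b := by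
    intro a b hab; rwa [h] at hab
  have hc' : ∀ a b, Relation.Comp s r a b → Relation.Comp r s a b := by
    intro a b hab; rwa [h]
  let t : Setoid S :=
    { r := Relation.Comp r s
      iseqv :=
        { refl := fun a => ⟨a, Setoid.refl' _ _, Setoid.refl' _ _⟩
          symm := by
            rintro a b ⟨c, h1, h2⟩
            exact hc' _ _ ⟨c, Setoid.symm' _ h2, Setoid.symm' _ h1⟩
          trans := by
            rintro a b c ⟨d, h1, h2⟩ ⟨e, h3, h4⟩
            obtain ⟨f, h5, h6⟩ := hc' _ _ ⟨b, h2, h3⟩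
            exact ⟨f, Setoid.trans' _ h1 h5, Setoid.trans' _ h6 h4⟩ } }
  have h1 : r ⊔ s ≤ t := by
    apply sup_le
    · intro a b hab
      exact ⟨b, hab, Setoid.refl' _ _⟩
    · intro a b hab
      exact ⟨a, Setoid.refl' _ _, hab⟩
  exact h1 hxy

section

variable {S : Type v} (φ : LatticeHom (NS Gam)ᵒᵈ (Setoid S))

/-- The relation belonging to a normal subgroup. -/
def relOf (N : NS Gam) : Setoid S := φ (OrderDual.toDual N)

theorem relOf_sup (N M : NS Gam) : relOf φ (N ⊔ M) = relOf φ N ⊓ relOf φ M := by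
  unfold relOf
  rw [← map_inf]
  rfl

theorem relOf_inf (N M : NS Gam) : relOf φ (N ⊓ M) = relOf φ N ⊔ relOf φ M := by
  unfold relOf
  rw [← map_sup]
  rfl

theorem relOf_anti {N M : NS Gam} (h : N ≤ M) : relOf φ M ≤ relOf φ N := by
  have e : N ⊔ M = M := sup_eq_right.2 h
  have h1 := relOf_sup φ N M
  rw [e] at h1
  rw [h1]
  exact inf_le_left

/-- The relation holds for the normal subgroup `N`. -/
def Hol (s t : S) (N : Subgroup Gam) : Prop := ∃ h : N.Normal, relOf φ ⟨N, h⟩ s t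

theorem Hol.sup {s t : S} {N M : Subgroup Gam} (h : Hol φ s t N) (h' : Hol φ s t M) :
    Hol φ s t (N ⊔ M) := by
  obtain ⟨hN, h1⟩ := h
  obtain ⟨hM, h2⟩ := h'
  have hNM : (N ⊔ M).Normal := Subgroup.sup_normal N M
  refine ⟨hNM, ?_⟩
  have e : (⟨N ⊔ M, hNM⟩ : NS Gam) = ⟨N, hN⟩ ⊔ ⟨M, hM⟩ := rfl
  rw [e, relOf_sup]
  exact ⟨h1, h2⟩

/-- The largest normal subgroup whose relation holds. -/
noncomputable def lab (s t : S) : Subgroup Gam :=
  (Set.toFinite {N : Subgroup Gam | Hol φ s t N}).toFinset.sup id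

theorem le_lab {s t : S} {N : Subgroup Gam} (h : Hol φ s t N) : N ≤ lab φ s t := by
  unfold lab
  exact Finset.le_sup (f := id) ((Set.Finite.mem_toFinset _).2 h)

theorem hol_lab {s t : S} (h : Hol φ s t ⊥) : Hol φ s t (lab φ s t) := by
  unfold lab
  apply Finset.sup_induction (p := Hol φ s t) h
  · intro a ha b hb
    exact ha.sup φ hb
  · intro b hb
    rw [Set.Finite.mem_toFinset] at hb
    exact hb

/-- The least element of the lattice of normal subgroups. -/
def botN : NS Gam := ⟨⊥, (inferInstance : (⊥ : Subgroup Gam).Normal)⟩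

theorem botN_le (N : NS Gam) : botN ≤ N := by
  change (⊥ : Subgroup Gam) ≤ N.1
  exact bot_le

/-- The labelling defined by a representation, on a class of the largest relation. -/
noncomputable def labOf (hc : ∀ x y, Relation.Comp (φ x) (φ y) = Relation.Comp (φ y) (φ x))
    (o : S) : Lab {q : S // relOf φ botN o q} where
  M s t := lab φ s.1 t.1
  nrm s t := by
    have h : Hol φ s.1 t.1 ⊥ := ⟨_, Setoid.trans' _ (Setoid.symm' _ s.2) t.2⟩
    exact (hol_lab φ h).1
  refl s := by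
    apply top_unique
    apply le_lab
    exact ⟨inferInstance, Setoid.refl' _ _⟩
  symm s t := by
    have key : ∀ s t : {q : S // relOf φ botN o q}, lab φ s.1 t.1 ≤ lab φ t.1 s.1 := by
      intro s t
      have h : Hol φ s.1 t.1 ⊥ := ⟨_, Setoid.trans' _ (Setoid.symm' _ s.2) t.2⟩
      obtain ⟨h1, h2⟩ := hol_lab φ h
      exact le_lab φ ⟨h1, Setoid.symm' _ h2⟩
    exact le_antisymm (key s t) (key t s)
  trans s t u := by
    have h : Hol φ s.1 t.1 ⊥ := ⟨_, Setoid.trans' _ (Setoid.symm' _ s.2) t.2⟩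
    have h' : Hol φ t.1 u.1 ⊥ := ⟨_, Setoid.trans' _ (Setoid.symm' _ t.2) u.2⟩
    obtain ⟨h1, h2⟩ := hol_lab φ h
    obtain ⟨h3, h4⟩ := hol_lab φ h'
    have hn : (lab φ s.1 t.1 ⊓ lab φ t.1 u.1).Normal := Subgroup.normal_inf_normal _ _
    apply le_lab
    refine ⟨hn, ?_⟩
    have e : (⟨lab φ s.1 t.1 ⊓ lab φ t.1 u.1, hn⟩ : NS Gam) = ⟨_, h1⟩ ⊓ ⟨_, h3⟩ := rfl
    rw [e, relOf_inf]
    exact Setoid.trans' _ ((le_sup_left : relOf φ ⟨_, h1⟩ ≤ _) h2)
      ((le_sup_right : relOf φ ⟨_, h3⟩ ≤ _) h4)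
  fill N N' hN hN' s u hle := by
    have h : Hol φ s.1 u.1 ⊥ := ⟨_, Setoid.trans' _ (Setoid.symm' _ s.2) u.2⟩
    obtain ⟨h1, h2⟩ := hol_lab φ h
    have h3 : relOf φ (⟨N, hN⟩ ⊓ ⟨N', hN'⟩) s.1 u.1 := by
      have h4 : (⟨N, hN⟩ ⊓ ⟨N', hN'⟩ : NS Gam) ≤ ⟨_, h1⟩ := hle
      exact relOf_anti φ h4 h2
    rw [relOf_inf] at h3
    obtain ⟨t, h5, h6⟩ := sup_comp (hc _ _) h3
    have h7 : relOf φ botN s.1 t := relOf_anti φ (botN_le _) h5
    refine ⟨⟨t, Setoid.trans' _ s.2 h7⟩, ?_, ?_⟩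
    · exact le_lab φ ⟨hN, h5⟩
    · exact le_lab φ ⟨hN', h6⟩

end

/-- The dual of the lattice of normal subgroups of `Gam` is not linear. -/
theorem not_linear_dual : ¬ IsLinear.{0, v} (NS Gam)ᵒᵈ := by
  rintro ⟨S, φ, hinj, hc⟩
  -- a nonzero matrix
  let z0 : Mat := fun _ _ => 1
  have hz0 : z0 ≠ 0 := by
    intro h
    have := congrFun (congrFun h 0) 0
    revert this
    decide
  let Z : NS Gam := ⟨ZN (pair z0), inferInstanceAs (ZN (pair z0)).Normal⟩
  have hne : relOf φ botN ≠ relOf φ Z := by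
    intro h
    have h1 : (botN : NS Gam) = Z := hinj h
    have h2 : (⟨0, z0, 0⟩ : Gam) ∈ Z.1 := ⟨rfl, rfl, Or.inr rfl⟩
    rw [← h1] at h2
    have h3 : (⟨0, z0, 0⟩ : Gam) = 1 := h2
    exact hz0 (congrArg Gam.z h3)
  have hle : relOf φ Z ≤ relOf φ botN := relOf_anti φ (botN_le _)
  have hex : ∃ o o', relOf φ botN o o' ∧ ¬ relOf φ Z o o' := by
    by_contra hcon
    push Not at hcon
    exact hne (le_antisymm (fun {a b} h => hcon a b h) hle)
  obtain ⟨o, o', h1, h2⟩ := hex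
  apply (labOf φ hc o).contra ⟨o, Setoid.refl' _ _⟩ ⟨o', h1⟩ z0
  intro h3
  apply h2
  have h4 : Hol φ o o' ⊥ := ⟨_, h1⟩
  obtain ⟨h5, h6⟩ := hol_lab φ h4
  have h7 : Z ≤ ⟨_, h5⟩ := by
    rintro x hx
    obtain ⟨hx1, hx2, hx3⟩ := mem_ZN.1 hx
    rcases hx3 with hx3 | hx3
    · have e : x = 1 := by
        ext1
        · exact hx1
        · exact hx3
        · exact hx2
      rw [e]
      exact one_mem _
    · have e : x = ⟨0, z0, 0⟩ := by
        ext1
        · exact hx1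
        · exact hx3
        · exact hx2
      rw [e]
      exact h3
  exact relOf_anti φ h7 h6

end Pool.Agent.H73.LinLat
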